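import Pool.Agent.Y798.FC.Stm3

/-! Project FC, job FC-BC: from the joint law with the Frobenius elements to the extensions
(adapted from `HG.ext_law` of `Pool.Agent.Y798.JL.Main`). -/

set_option autoImplicit false
set_option linter.unusedSectionVars false

namespace Pool.Agent.Y824.FC

open Complex Filter Topology ComplexConjugate NumberField IsDedekindDomain MeasureTheory
  Pool.Agent.W540.BE Pool.Agent.TH553.RS Pool.Agent.TH553.ST Pool.Agent.W401.Cheb
  Pool.Agent.Y798.JL Pool.Agent.Y798.FC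
open Pool.Agent.W353.NF (act fixn fixn_conj fixn_inv fixn_mul_ker fixn_le ker_act_open)


section

variable {K : Type} [Field K] [NumberField K] {σ : HeightOneSpectrum (𝓞 K) → GK K}

theorem bc (hfr : ∀ v, IsFrob v (σ v)) {X : Type} [TopologicalSpace X] [CompactSpace X]
    {R : X → X → Prop} {x : HeightOneSpectrum (𝓞 K) → X} {c0 : (X → ℝ) → ℝ}
    (hc0 : c0 (fun _ => 1) = 1)
    (hj : ∀ (U : Subgroup (GK K)) [U.Normal], IsOpen (U : Set (GK K)) →
      ∀ f : X → ℝ, Continuous f → (∀ a b, R a b → f a = f b) →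
      ∀ e : GK K ⧸ U → ℂ, (∀ g k, e (k * g * k⁻¹) = e g) →
        Tendsto (mn fun v => ((f (x v) : ℝ) : ℂ) * e (QuotientGroup.mk (σ v))) atTop
          (𝓝 ((c0 f : ℂ) * ((Nat.card (GK K ⧸ U) : ℂ)⁻¹ * ∑ᶠ q, e q))))
    {F : Type} [Field F] [NumberField F] [Algebra K F] {y : HeightOneSpectrum (𝓞 F) → X}
    {S : Finset (HeightOneSpectrum (𝓞 F))}
    (hS : ∀ w, w ∉ S → ∀ v : HeightOneSpectrum (𝓞 K),
        w.asIdeal.comap (algebraMap (𝓞 K) (𝓞 F)) = v.asIdeal →
        Ideal.absNorm w.asIdeal = Ideal.absNorm v.asIdeal → R (y w) (x v))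
    {f : X → ℝ} (hf : Continuous f) (hcl : ∀ a b, R a b → f a = f b) :
    Tendsto (mn fun w => f (y w)) atTop (𝓝 (c0 f)) := by
  classical
  have hopen := ker_act_open K F
  set U := (act K F).ker with hU
  -- the permutation character
  set e : GK K ⧸ U → ℂ := fun q => ((fixn K F q.out : ℕ) : ℂ) with he
  have he1 : ∀ g : GK K, e (QuotientGroup.mk g) = ((fixn K F g : ℕ) : ℂ) := by
    intro g
    obtain ⟨u, hu⟩ := QuotientGroup.mk_out_eq_mul U g
    rw [he]
    simp only
    rw [hu, fixn_mul_ker K F g u u.2]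
  have hecl : ∀ g k, e (k * g * k⁻¹) = e g := by
    intro g k
    obtain ⟨g, rfl⟩ := QuotientGroup.mk_surjective g
    obtain ⟨k, rfl⟩ := QuotientGroup.mk_surjective k
    rw [← QuotientGroup.mk_inv, ← QuotientGroup.mk_mul, ← QuotientGroup.mk_mul, he1, he1,
      fixn_conj]
  set c : ℂ := (Nat.card (GK K ⧸ U) : ℂ)⁻¹ * ∑ᶠ q, e q with hc
  set T : (X → ℝ) → HeightOneSpectrum (𝓞 K) → ℝ := fun f v => f (x v) with hT
  have hbK : ∀ f : X → ℝ, Continuous f → ∃ B, ∀ v, |T f v| ≤ B := by
    intro f hf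
    obtain ⟨C, hC⟩ := (isCompact_univ (X := X)).exists_bound_of_continuousOn
      hf.continuousOn
    exact ⟨C, fun v => hC _ (Set.mem_univ _)⟩
  have hbF : ∀ f : X → ℝ, Continuous f →
      ∃ B, ∀ w : HeightOneSpectrum (𝓞 F), |f (y w)| ≤ B := by
    intro f hf
    obtain ⟨C, hC⟩ := (isCompact_univ (X := X)).exists_bound_of_continuousOn
      hf.continuousOn
    exact ⟨C, fun v => hC _ (Set.mem_univ _)⟩
  have key : ∀ f : X → ℝ, Continuous f → (∀ a b, R a b → f a = f b) →
      Tendsto (fun Y : ℕ => W353.SP.EN F Y fun w => f (y w)) atTop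
        (𝓝 (c0 f * c.re)) := by
    intro f hf hcl
    have h1 := Y798.PS.EN_bc (K := K) (F := F) σ hfr (T := T f) (TF := fun w => f (y w))
      (hbK f hf) (hbF f hf) S (fun w hw v h2 h3 => by
        change f (y w) = f (x v)
        exact hcl _ _ (hS w hw v h2 h3))
    have h2 := hj U hopen f hf hcl e hecl
    rw [← hc] at h2
    have h3 := (Complex.continuous_re.tendsto _).comp (mn_tendsto h2)
    rw [Complex.re_ofReal_mul] at h3
    have h5 := h1.add h3
    rw [zero_add] at h5
    refine h5.congr fun Y => ?_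
    have h6 : ((fun n : ℕ => (∑ v ∈ upto K n, ((f (x v) : ℝ) : ℂ) *
        e (QuotientGroup.mk (σ v))) / (Nat.primeCounting n : ℂ)) Y).re =
        W353.SP.EN K Y (fun v => T f v * fixn K F (σ v)) := by
      unfold W353.SP.EN
      simp only [he1]
      rw [← Complex.ofReal_natCast (Nat.primeCounting Y), Complex.div_ofReal_re, Complex.re_sum]
      congr 1
      refine Finset.sum_congr rfl fun v _ => ?_
      rw [Complex.re_ofReal_mul, Complex.natCast_re]
    simp only [Function.comp]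
    rw [h6]
    ring
  -- the constant is one
  have hc1 : c.re = 1 := by
    have h1 := key (fun _ => 1) continuous_const fun _ _ _ => rfl
    rw [hc0, one_mul] at h1
    have h3 := card_ratio (K := F)
    refine tendsto_nhds_unique h1 (h3.congr fun Y => ?_)
    unfold W353.SP.EN
    rw [Finset.sum_const, nsmul_eq_mul, mul_one]
  have h1 := key f hf hcl
  rw [hc1, mul_one] at h1
  have h2 : Tendsto (fun Y : ℕ => (∑ w ∈ upto F Y, ((f (y w) : ℝ) : ℂ)) /
      (Nat.primeCounting Y : ℂ)) atTop (𝓝 ((c0 f : ℝ) : ℂ)) := by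
    refine ((Complex.continuous_ofReal.tendsto _).comp h1).congr fun Y => ?_
    simp only [Function.comp]
    unfold W353.SP.EN
    push_cast
    rfl
  have h3 := (Complex.continuous_re.tendsto _).comp (mn_of_pi h2)
  rw [Complex.ofReal_re] at h3
  refine h3.congr fun N => ?_
  simp only [Function.comp]
  rw [re_mn]
  congr 1

end

theorem t : StmBC := by
  intro K _ _ σ hfr X _ _ R x c0 hc0 hj F _ _ _ y hS f hf hcl
  obtain ⟨S, hS⟩ := hS
  exact bc hfr hc0 hj hS hf hcl

end Pool.Agent.Y824.FC
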